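import Pool.Agent.V11257.Wd6

/-!
# `P(ω)/fin` embeds into Lipschitz and `C^∞` reducibility on `D₂(Σ⁰₁)` sets of reals

The family is the same for both classes of functions (and for all classes in between): see
`Pool.Agent.V11257W.A` in `Pool.Agent.V11257.Wd5`.
-/

open scoped NNReal

namespace Pool.Agent.Results.MP_b9d480_lc.LipSmoothEmbedding

/-- `A ≤_𝓕 B`: some function of the class `𝓕` has `A` as its preimage of `B`. -/
def RedBy (𝓕 : Set (ℝ → ℝ)) (A B : Set ℝ) : Prop := ∃ f ∈ 𝓕, A = f ⁻¹' B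

/-- The sets of the form `U ∩ F` with `U` open and `F` closed. -/
def IsD2 (A : Set ℝ) : Prop := ∃ U F : Set ℝ, IsOpen U ∧ IsClosed F ∧ A = U ∩ F

/-- The Lipschitz functions. -/
def Lip : Set (ℝ → ℝ) := {f | ∃ K : ℝ≥0, LipschitzWith K f}

/-- The infinitely differentiable functions. -/
def Smooth : Set (ℝ → ℝ) := {f | ContDiff ℝ (⊤ : ℕ∞) f}

/-- The family `A` of subsets of the line, indexed by the sets of natural numbers, is an embedding
of `P(ω)/fin` into `≤_𝓕`. -/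
def EmbedsBy (A : Set ℕ → Set ℝ) (𝓕 : Set (ℝ → ℝ)) : Prop :=
  ∀ x y : Set ℕ, (x \ y).Finite ↔ RedBy 𝓕 (A x) (A y)

/-- There is a family of `D₂(Σ⁰₁)` subsets of the line that is an embedding of `P(ω)/fin` into
`≤_Lip` (Q1) and into `≤_{C^∞}` (Q2), and also into `≤_𝓕` for every class `𝓕` of continuous
functions that contains the smooth Lipschitz functions. -/
theorem result : ∃ A : Set ℕ → Set ℝ, (∀ x, IsD2 (A x)) ∧
    EmbedsBy A Lip ∧ EmbedsBy A Smooth ∧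
    ∀ 𝓕 : Set (ℝ → ℝ), Lip ∩ Smooth ⊆ 𝓕 → (∀ f ∈ 𝓕, Continuous f) → EmbedsBy A 𝓕 := by
  have key : ∀ 𝓕 : Set (ℝ → ℝ), Lip ∩ Smooth ⊆ 𝓕 → (∀ f ∈ 𝓕, Continuous f) →
      EmbedsBy V11257W.A 𝓕 := by
    refine fun 𝓕 h1 h2 x y => ⟨fun h => ?_, ?_⟩
    · obtain ⟨f, f1, f2, f3⟩ := V11257W.exists_red_of_almost h
      exact ⟨f, h1 ⟨f2, f1⟩, f3⟩
    · rintro ⟨f, hf, h⟩
      exact V11257W.almost_of_cont (h2 f hf) h
  refine ⟨V11257W.A, V11257W.A_d2, key Lip (fun f hf => hf.1) ?_, key Smooth (fun f hf => hf.2) ?_,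
    key⟩
  · rintro f ⟨K, hK⟩
    exact hK.continuous
  · intro f hf
    exact ContDiff.continuous (𝕜 := ℝ) (n := ((⊤ : ℕ∞) : WithTop ℕ∞)) hf

end Pool.Agent.Results.MP_b9d480_lc.LipSmoothEmbedding
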